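import Pool.Agent.H840R4.Defect

/-!
# Hamiltonicity and cyclic edge-connectivity of cubic graphs
-/

set_option autoImplicit false

namespace Pool.Agent.H840R4.Cubic

open Pool.Agent.H840R4.Defect

/-- A cyclic sequence through all vertices gives a Hamiltonian cycle. -/
theorem isHamiltonian_of_seq {W : Type} [Fintype W] [DecidableEq W] (H : SimpleGraph W) (k : ℕ)
    (hk : Fintype.card W = k + 3) (s : Fin (k + 3) → W) (hinj : Function.Injective s)
    (hadj : ∀ i, H.Adj (s i) (s (i + 1))) : H.IsHamiltonian := by
  have hcon : (SimpleGraph.cycleGraph (k + 3)).IsContained H := by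
    refine ⟨⟨⟨s, ?_⟩, hinj⟩⟩
    intro u v huv
    rcases SimpleGraph.cycleGraph_adj.1 huv with h | h
    · have : u = v + 1 := by rw [← h]; abel
      rw [this]
      exact (hadj v).symm
    · have : v = u + 1 := by rw [← h]; abel
      rw [this]
      exact hadj u
  obtain ⟨v, p, hp, hl⟩ := (SimpleGraph.cycleGraph_isContained_iff (by omega)).1 hcon
  intro _
  exact ⟨v, p, SimpleGraph.Walk.isHamiltonianCycle_iff_isCycle_and_length_eq.2
    ⟨hp, by rw [hl, hk]⟩⟩

/-- A cycle of length `k + 3` gives a cyclic sequence. -/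
theorem seq_of_cycle {W : Type} (H : SimpleGraph W) (k : ℕ) (v : W) (p : H.Walk v v)
    (hp : p.IsCycle) (hl : p.length = k + 3) :
    ∃ s : Fin (k + 3) → W, Function.Injective s ∧ ∀ i, H.Adj (s i) (s (i + 1)) := by
  obtain ⟨f⟩ := (SimpleGraph.cycleGraph_isContained_iff (n := k + 3) (by omega)).2 ⟨v, p, hp, hl⟩
  refine ⟨f.toHom, f.injective, fun i => ?_⟩
  apply f.toHom.map_adj
  rw [SimpleGraph.cycleGraph_adj]
  right
  abel

theorem seq_of_isHamiltonian {W : Type} [Fintype W] [DecidableEq W] (H : SimpleGraph W) (k : ℕ)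
    (hk : Fintype.card W = k + 3) (hH : H.IsHamiltonian) :
    ∃ s : Fin (k + 3) → W, Function.Injective s ∧ ∀ i, H.Adj (s i) (s (i + 1)) := by
  obtain ⟨v, p, hp⟩ := hH (by omega)
  exact seq_of_cycle H k v p hp.isCycle (by rw [hp.length_eq, hk])

/-- A Hamiltonian cubic graph with an even number of vertices is 3-edge-colourable. -/
theorem colourable_of_isHamiltonian {V : Type} [Fintype V] [DecidableEq V] (G : SimpleGraph V)
    [DecidableRel G.Adj] (h3 : G.IsRegularOfDegree 3) (k : ℕ) (hk : Fintype.card V = k + 3)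
    (hev : Even (k + 3)) (hH : G.IsHamiltonian) : ThreeEdgeColourable G := by
  classical
  obtain ⟨s, hinj, hadj⟩ := seq_of_isHamiltonian G k hk hH
  have hbij : Function.Bijective s :=
    (Fintype.bijective_iff_injective_and_card s).2 ⟨hinj, by simp [hk]⟩
  have hpar : ∀ i : Fin (k + 3), Even (i + 1).val ↔ ¬ Even i.val := by
    intro i
    rw [Fin.val_add_one]
    split_ifs with h
    · subst h
      simp only [Fin.val_last]
      constructor
      · intro _ h2
        rw [Nat.even_add_one] at hev
        exact hev h2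
      · intro _
        exact ⟨0, rfl⟩
    · exact Nat.even_add_one
  refine ⟨fun e => if ∃ i : Fin (k + 3), e = s(s i, s (i + 1)) ∧ Even i.val then 0 else
    if ∃ i : Fin (k + 3), e = s(s i, s (i + 1)) ∧ ¬ Even i.val then 1 else 2, ?_⟩
  intro u v w huv huw hvw hc
  obtain ⟨a, rfl⟩ := hbij.2 u
  have hsame : ∀ P : Prop, ∀ i j : Fin (k + 3), s(s a, v) = s(s i, s (i + 1)) →
      s(s a, w) = s(s j, s (j + 1)) → (Even i.val ↔ Even j.val) → P := by
    intro P i j hi hj hij
    exfalso
    apply hvw
    rw [Sym2.eq_iff] at hi hj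
    rcases hi with ⟨h1, h2⟩ | ⟨h1, h2⟩ <;> rcases hj with ⟨h1', h2'⟩ | ⟨h1', h2'⟩
    · have e1 := hinj h1
      have e2 := hinj h1'
      rw [h2, h2', ← e1, ← e2]
    · have e1 := hinj h1
      have e2 := hinj h1'
      have := hpar j
      rw [← e2, e1] at this
      tauto
    · have e1 := hinj h1
      have e2 := hinj h1'
      have := hpar i
      rw [← e1, e2] at this
      tauto
    · have e1 := hinj h1
      have e2 := hinj h1'
      have : i = j := by
        have := e1.symm.trans e2
        exact add_right_cancel this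
      rw [h2, h2', this]
  by_cases hv0 : ∃ i : Fin (k + 3), s(s a, v) = s(s i, s (i + 1)) ∧ Even i.val
  · by_cases hw0 : ∃ i : Fin (k + 3), s(s a, w) = s(s i, s (i + 1)) ∧ Even i.val
    · obtain ⟨i, hi, hi'⟩ := hv0
      obtain ⟨j, hj, hj'⟩ := hw0
      exact hsame _ i j hi hj (by tauto)
    · simp only [hv0, hw0, if_true, if_false] at hc
      split_ifs at hc <;> exact absurd hc (by decide)
  · by_cases hw0 : ∃ i : Fin (k + 3), s(s a, w) = s(s i, s (i + 1)) ∧ Even i.val
    · simp only [hv0, hw0, if_true, if_false] at hc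
      split_ifs at hc <;> exact absurd hc (by decide)
    · simp only [hv0, hw0, if_false] at hc
      by_cases hv1 : ∃ i : Fin (k + 3), s(s a, v) = s(s i, s (i + 1)) ∧ ¬ Even i.val
      · by_cases hw1 : ∃ i : Fin (k + 3), s(s a, w) = s(s i, s (i + 1)) ∧ ¬ Even i.val
        · obtain ⟨i, hi, hi'⟩ := hv1
          obtain ⟨j, hj, hj'⟩ := hw1
          exact hsame _ i j hi hj (by tauto)
        · simp only [hv1, hw1, if_true, if_false] at hc
          exact absurd hc (by decide)
      · by_cases hw1 : ∃ i : Fin (k + 3), s(s a, w) = s(s i, s (i + 1)) ∧ ¬ Even i.val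
        · simp only [hv1, hw1, if_true, if_false] at hc
          exact absurd hc (by decide)
        · have hnv : ∀ i : Fin (k + 3), s(s a, v) ≠ s(s i, s (i + 1)) := by
            intro i hi
            by_cases hi' : Even i.val
            · exact hv0 ⟨i, hi, hi'⟩
            · exact hv1 ⟨i, hi, hi'⟩
          have hnw : ∀ i : Fin (k + 3), s(s a, w) ≠ s(s i, s (i + 1)) := by
            intro i hi
            by_cases hi' : Even i.val
            · exact hw0 ⟨i, hi, hi'⟩
            · exact hw1 ⟨i, hi, hi'⟩
          obtain ⟨x, y, z, hxy, hxz, hyz, hN⟩ := nbrs G h3 (s a)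
          have a1 : G.Adj (s a) (s (a + 1)) := hadj a
          have hb : a - 1 + 1 = a := by abel
          have a2 : G.Adj (s a) (s (a - 1)) := by
            have := hadj (a - 1)
            rw [hb] at this
            exact this.symm
          have hne : s (a + 1) ≠ s (a - 1) := by
            intro h
            have h' := hinj h
            have h2 : (a + 1).val = (a - 1).val := by rw [h']
            have h3' : a = (a - 1) + 1 := hb.symm
            have h4 : a.val = ((a - 1) + 1).val := by rw [← h3']
            rw [Fin.val_add_one] at h2 h4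
            have l1 := a.isLt
            have l2 := (a - 1).isLt
            split_ifs at h2 h4 with g1 g2 g2
            · have : (a - 1).val = k + 2 := by rw [g2]; simp
              omega
            · have : a.val = k + 2 := by rw [g1]; simp
              omega
            · have : (a - 1).val = k + 2 := by rw [g2]; simp
              omega
            · omega
          have v1 : v ≠ s (a + 1) := by
            rintro rfl
            exact hnv a rfl
          have v2 : v ≠ s (a - 1) := by
            rintro rfl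
            apply hnv (a - 1)
            rw [hb, Sym2.eq_swap]
          have w1 : w ≠ s (a + 1) := by
            rintro rfl
            exact hnw a rfl
          have w2 : w ≠ s (a - 1) := by
            rintro rfl
            apply hnw (a - 1)
            rw [hb, Sym2.eq_swap]
          have e1 := (hN _).1 a1
          have e2 := (hN _).1 a2
          have e3 := (hN _).1 huv
          have e4 := (hN _).1 huw
          grind

/-- The edges of `G` between `X` and its complement. -/
def crossing {V : Type} (G : SimpleGraph V) (X : Set V) : Set (Sym2 V) :=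
  {e | e ∈ G.edgeSet ∧ ∃ a ∈ X, ∃ b ∉ X, e = s(a, b)}

/-- `G` is cyclically `k`-edge-connected: every edge cut whose two sides both contain a cycle has
at least `k` edges. -/
def CyclicallyEdgeConnected {V : Type} (k : ℕ) (G : SimpleGraph V) : Prop :=
  ∀ X : Set V, ¬ (G.induce X).IsAcyclic → ¬ (G.induce Xᶜ).IsAcyclic → k ≤ (crossing G X).ncard

/-- bit `g` of `a` as an element of `ZMod 2` -/
def bit (g a : ℕ) : ZMod 2 := if a.testBit g then 1 else 0

theorem bit_xor (g a b : ℕ) : bit g (a ^^^ b) = bit g a + bit g b := by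
  unfold bit
  rw [Nat.testBit_xor]
  cases a.testBit g <;> cases b.testBit g <;> simp; decide

theorem eq_zero_of_bits (a : ℕ) (h : ∀ g, bit g a = 0) : a = 0 := by
  apply Nat.eq_of_testBit_eq
  intro g
  have := h g
  unfold bit at this
  split_ifs at this with h1
  · exact absurd this (by decide)
  · simpa using h1

/-- A criterion for cyclic 4-edge-connectivity of a cubic graph, through a nowhere-zero
`ℤ₂ᵏ`-flow `φ` whose only zero-sum sets of at most three edges are vertex stars. -/
theorem cyclically_four {V : Type} [Fintype V] [DecidableEq V] (G : SimpleGraph V) (m : ℕ)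
    (E1 E2 : Fin m → V) (inc : V → Fin 3 → Fin m) (φ : Fin m → ℕ)
    (hE : ∀ i, G.Adj (E1 i) (E2 i))
    (hEinj : ∀ i j, s(E1 i, E2 i) = s(E1 j, E2 j) → i = j)
    (hEsurj : ∀ a b, G.Adj a b → ∃ i, s(E1 i, E2 i) = s(a, b))
    (hinc : ∀ v i, (E1 i = v ∨ E2 i = v) ↔ (i = inc v 0 ∨ i = inc v 1 ∨ i = inc v 2))
    (hincne : ∀ v, inc v 0 ≠ inc v 1 ∧ inc v 0 ≠ inc v 2 ∧ inc v 1 ≠ inc v 2)
    (hflow : ∀ v, φ (inc v 0) ^^^ (φ (inc v 1) ^^^ φ (inc v 2)) = 0)
    (hone : ∀ i, φ i ≠ 0)
    (htwo : ∀ i j, φ i ^^^ φ j = 0 → i = j)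
    (hthree : ∀ i j l, i ≠ j → i ≠ l → j ≠ l → φ i ^^^ (φ j ^^^ φ l) = 0 →
      ∃ v, ∀ t, (t = i ∨ t = j ∨ t = l) ↔ (E1 t = v ∨ E2 t = v))
    (hconn : ∀ X : Set V, (∀ a b, G.Adj a b → (a ∈ X ↔ b ∈ X)) → X = ∅ ∨ X = Set.univ) :
    CyclicallyEdgeConnected 4 G := by
  classical
  intro X hX hXc
  by_contra hlt
  have hne : ∀ i, E1 i ≠ E2 i := fun i => (hE i).ne
  set K : Finset (Fin m) := Finset.univ.filter fun i => ¬ (E1 i ∈ X ↔ E2 i ∈ X) with hK
  have hcard : K.card ≤ (crossing G X).ncard := by
    have hsub : ((K.image fun i => s(E1 i, E2 i) : Finset (Sym2 V)) : Set (Sym2 V)) ⊆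
        crossing G X := by
      intro e he
      simp only [Finset.coe_image, Set.mem_image, Finset.mem_coe] at he
      obtain ⟨i, hi, rfl⟩ := he
      simp only [hK, Finset.mem_filter, Finset.mem_univ, true_and] at hi
      refine ⟨hE i, ?_⟩
      by_cases h1 : E1 i ∈ X
      · exact ⟨E1 i, h1, E2 i, by tauto, rfl⟩
      · exact ⟨E2 i, by tauto, E1 i, h1, Sym2.eq_swap⟩
    have h2 := Set.ncard_le_ncard hsub (Set.toFinite _)
    rw [Set.ncard_coe_finset, Finset.card_image_of_injective _ (fun i j h => hEinj i j h)] at h2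
    exact h2
  -- the cut is orthogonal to the flow
  have horth : ∀ g, ∑ i ∈ K, bit g (φ i) = 0 := by
    intro g
    let x : V → ZMod 2 := fun v => if v ∈ X then 1 else 0
    have h1 : ∑ i ∈ K, bit g (φ i) = ∑ i, bit g (φ i) * (x (E1 i) + x (E2 i)) := by
      rw [hK, Finset.sum_filter]
      refine Finset.sum_congr rfl fun i _ => ?_
      by_cases a1 : E1 i ∈ X <;> by_cases a2 : E2 i ∈ X <;> simp [x, a1, a2]
      right
      decide
    have h2 : ∀ i, x (E1 i) + x (E2 i) =
        ∑ v, x v * (if E1 i = v ∨ E2 i = v then 1 else 0) := by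
      intro i
      have : ∀ v, x v * (if E1 i = v ∨ E2 i = v then (1 : ZMod 2) else 0) =
          (if E1 i = v then x v else 0) + (if E2 i = v then x v else 0) := by
        intro v
        have := hne i
        by_cases b1 : E1 i = v <;> by_cases b2 : E2 i = v
        · exact absurd (b1.trans b2.symm) this
        · simp [b1, b2]
        · simp [b1, b2]
        · simp [b1, b2]
      rw [Finset.sum_congr rfl fun v _ => this v, Finset.sum_add_distrib]
      simp
    rw [h1]
    have h3 : ∑ i, bit g (φ i) * (x (E1 i) + x (E2 i)) =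
        ∑ v, x v * ∑ i, (if E1 i = v ∨ E2 i = v then bit g (φ i) else 0) := by
      rw [Finset.sum_congr rfl fun i _ => by rw [h2 i, Finset.mul_sum], Finset.sum_comm]
      refine Finset.sum_congr rfl fun v _ => ?_
      rw [Finset.mul_sum]
      refine Finset.sum_congr rfl fun i _ => ?_
      split_ifs <;> ring
    rw [h3]
    refine Finset.sum_eq_zero fun v _ => ?_
    have h4 : ∑ i, (if E1 i = v ∨ E2 i = v then bit g (φ i) else 0) =
        ∑ i ∈ ({inc v 0, inc v 1, inc v 2} : Finset (Fin m)), bit g (φ i) := by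
      rw [← Finset.sum_filter]
      refine Finset.sum_congr ?_ fun _ _ => rfl
      ext i
      simp only [Finset.mem_filter, Finset.mem_univ, true_and, Finset.mem_insert,
        Finset.mem_singleton]
      exact hinc v i
    obtain ⟨n1, n2, n3⟩ := hincne v
    rw [h4, Finset.sum_insert (by simp [n1, n2]), Finset.sum_insert (by simp [n3]),
      Finset.sum_singleton, ← bit_xor, ← bit_xor, hflow v]
    simp [bit]
  have hK3 : K.card ≤ 3 := by omega
  have hmemK : ∀ i, i ∈ K ↔ ¬ (E1 i ∈ X ↔ E2 i ∈ X) := by
    intro i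
    simp [hK]
  have hacyc : ∀ Y : Set V, Y.Subsingleton → (G.induce Y).IsAcyclic := by
    intro Y hY
    have : Subsingleton Y := Set.subsingleton_coe Y |>.2 hY
    exact SimpleGraph.IsAcyclic.of_subsingleton
  have hedge : ∀ Y : Set V, (∀ i, E1 i ∈ Y ↔ E2 i ∈ Y) → Y = ∅ ∨ Y = Set.univ := by
    intro Y hY
    apply hconn
    intro a b hab
    obtain ⟨i, hi⟩ := hEsurj a b hab
    rcases Sym2.eq_iff.1 hi with ⟨rfl, rfl⟩ | ⟨rfl, rfl⟩
    · exact hY i
    · exact (hY i).symm
  interval_cases hc : K.card
  · -- no crossing edge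
    rw [Finset.card_eq_zero] at hc
    have : ∀ i, E1 i ∈ X ↔ E2 i ∈ X := by
      intro i
      have := hmemK i
      rw [hc] at this
      simpa using this
    rcases hedge X this with h | h
    · exact hX (hacyc X (by rw [h]; exact Set.subsingleton_empty))
    · exact hXc (hacyc Xᶜ (by rw [h]; simp))
  · obtain ⟨i, hi⟩ := Finset.card_eq_one.1 hc
    apply hone i
    apply eq_zero_of_bits
    intro g
    have := horth g
    rw [hi, Finset.sum_singleton] at this
    exact this
  · obtain ⟨i, j, hij, hi⟩ := Finset.card_eq_two.1 hc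
    apply hij
    apply htwo
    apply eq_zero_of_bits
    intro g
    have := horth g
    rw [hi, Finset.sum_pair hij] at this
    rw [bit_xor]
    exact this
  · obtain ⟨i, j, l, hij, hil, hjl, hi⟩ := Finset.card_eq_three.1 hc
    have hz : φ i ^^^ (φ j ^^^ φ l) = 0 := by
      apply eq_zero_of_bits
      intro g
      have := horth g
      rw [hi, Finset.sum_insert (by simp [hij, hil]), Finset.sum_pair hjl] at this
      rw [bit_xor, bit_xor]
      exact this
    obtain ⟨v, hv⟩ := hthree i j l hij hil hjl hz
    have hKv : ∀ t, t ∈ K ↔ (E1 t = v ∨ E2 t = v) := by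
      intro t
      rw [← hv t, hi]
      simp
    -- flip `v`
    set Y : Set V := {u | (u ∈ X) ≠ (u = v)} with hY
    have hYe : ∀ t, E1 t ∈ Y ↔ E2 t ∈ Y := by
      intro t
      have h1 := hmemK t
      have h2 := hKv t
      have h3 := hne t
      have h4 : E1 t = v → E2 t ≠ v := fun a b => h3 (a.trans b.symm)
      simp only [hY, Set.mem_ofPred_eq, ne_eq, eq_iff_iff]
      tauto
    rcases hedge Y hYe with h | h
    · apply hX
      apply hacyc
      have : X = {v} := by
        ext u
        have : u ∉ Y := by rw [h]; simp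
        simp only [hY, Set.mem_ofPred_eq, ne_eq, eq_iff_iff, not_not] at this
        simpa using this
      rw [this]
      exact Set.subsingleton_singleton
    · apply hXc
      apply hacyc
      have : Xᶜ = {v} := by
        ext u
        have : u ∈ Y := by rw [h]; simp
        simp only [hY, Set.mem_ofPred_eq, ne_eq, eq_iff_iff] at this
        simp only [Set.mem_compl_iff, Set.mem_singleton_iff]
        tauto
      rw [this]
      exact Set.subsingleton_singleton

/-- Connectedness from an ordering in which each vertex but the first has a smaller neighbour. -/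
theorem const_of_lower {n : ℕ} (G : SimpleGraph (Fin (n + 1)))
    (h : ∀ v : Fin (n + 1), v ≠ 0 → ∃ u, u < v ∧ G.Adj v u) (X : Set (Fin (n + 1)))
    (hX : ∀ a b, G.Adj a b → (a ∈ X ↔ b ∈ X)) : X = ∅ ∨ X = Set.univ := by
  have key : ∀ k : ℕ, ∀ v : Fin (n + 1), v.val = k → (v ∈ X ↔ (0 : Fin (n + 1)) ∈ X) := by
    intro k
    induction k using Nat.strong_induction_on with
    | _ k ih =>
      intro v hv
      by_cases h0 : v = 0
      · rw [h0]
      · obtain ⟨u, hu, hadj⟩ := h v h0
        rw [hX v u hadj]
        exact ih u.val (by rw [← hv]; exact hu) u rfl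
  by_cases h0 : (0 : Fin (n + 1)) ∈ X
  · right
    ext v
    simp [(key _ v rfl).2 h0]
  · left
    ext v
    simp only [Set.mem_empty_iff_false, iff_false]
    rw [key _ v rfl]
    exact h0

end Pool.Agent.H840R4.Cubic
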