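import Mathlib

/-!
# The colouring defect of cubic graphs

`μ_k(G)` is the least number of edges left uncovered by `k` one-factors.  In a cubic graph that is
not 3-edge-colourable and has no 4-cycle and no 6-cycle, any three one-factors leave at least four
edges uncovered.
-/

set_option autoImplicit false

namespace Pool.Agent.H840R4.Defect

variable {V : Type} [Fintype V] [DecidableEq V]

/-- A 1-factor (perfect matching), as a set of edges covering every vertex exactly once. -/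
def IsOneFactor (G : SimpleGraph V) (M : Set (Sym2 V)) : Prop :=
  M ⊆ G.edgeSet ∧ ∀ v : V, ∃! e, e ∈ M ∧ v ∈ e

/-- The edges of `G` in none of the sets `M i`. -/
def uncovered (G : SimpleGraph V) {k : ℕ} (M : Fin k → Set (Sym2 V)) : Set (Sym2 V) :=
  G.edgeSet \ ⋃ i, M i

/-- `μ_k(G)`: the minimum number of edges not covered by `k` 1-factors. -/
noncomputable def mu (k : ℕ) (G : SimpleGraph V) : ℕ :=
  sInf {m | ∃ M : Fin k → Set (Sym2 V), (∀ i, IsOneFactor G (M i)) ∧ m = (uncovered G M).ncard}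

/-- There is a colouring of the edges with three colours in which edges sharing an endpoint get
different colours. -/
def ThreeEdgeColourable (G : SimpleGraph V) : Prop :=
  ∃ c : Sym2 V → Fin 3, ∀ u v w, G.Adj u v → G.Adj u w → v ≠ w → c s(u, v) ≠ c s(u, w)

omit [Fintype V] [DecidableEq V] in
theorem exists_partner (G : SimpleGraph V) (M : Set (Sym2 V)) (h : IsOneFactor G M) :
    ∃ f : V → V, (∀ v, G.Adj v (f v)) ∧ (∀ v, f (f v) = v) ∧ ∀ u v, s(u, v) ∈ M ↔ f u = v := by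
  have h1 : ∀ v : V, ∃ w : V, s(v, w) ∈ M := by
    intro v
    obtain ⟨e, ⟨he, hv⟩, _⟩ := h.2 v
    obtain ⟨w, rfl⟩ := Sym2.mem_iff_exists.1 hv
    exact ⟨w, he⟩
  choose f hf using h1
  have huniq : ∀ u v, s(u, v) ∈ M → f u = v := by
    intro u v huv
    have := (h.2 u).unique ⟨hf u, by simp⟩ ⟨huv, by simp⟩
    exact Sym2.congr_right.1 this
  refine ⟨f, fun v => h.1 (hf v), fun v => ?_, fun u v => ⟨huniq u v, ?_⟩⟩
  · apply huniq
    rw [Sym2.eq_swap]
    exact hf v
  · rintro rfl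
    exact hf u

omit [Fintype V] [DecidableEq V] in
theorem isOneFactor_of_partner (G : SimpleGraph V) (f : V → V) (h1 : ∀ v, G.Adj v (f v))
    (h2 : ∀ v, f (f v) = v) : IsOneFactor G {e | ∃ v, e = s(v, f v)} := by
  refine ⟨?_, fun v => ⟨s(v, f v), ⟨⟨v, rfl⟩, by simp⟩, ?_⟩⟩
  · rintro e ⟨v, rfl⟩
    exact h1 v
  · rintro e ⟨⟨u, rfl⟩, hv⟩
    rcases Sym2.mem_iff.1 hv with rfl | rfl
    · rfl
    · rw [h2, Sym2.eq_swap]

theorem nbrs (G : SimpleGraph V) [DecidableRel G.Adj] (h3 : G.IsRegularOfDegree 3) (v : V) :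
    ∃ a b c, a ≠ b ∧ a ≠ c ∧ b ≠ c ∧ ∀ w, G.Adj v w ↔ w = a ∨ w = b ∨ w = c := by
  have h := h3 v
  rw [← SimpleGraph.card_neighborFinset_eq_degree, Finset.card_eq_three] at h
  obtain ⟨a, b, c, hab, hac, hbc, he⟩ := h
  refine ⟨a, b, c, hab, hac, hbc, fun w => ?_⟩
  rw [← SimpleGraph.mem_neighborFinset, he]
  simp

/-- Main lemma: three one-factors leave at least four edges uncovered. -/
theorem four_le_uncovered (G : SimpleGraph V) [DecidableRel G.Adj] (h3 : G.IsRegularOfDegree 3)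
    (hcol : ¬ ThreeEdgeColourable G)
    (h4 : ∀ a b c d, G.Adj a b → G.Adj b c → G.Adj c d → G.Adj d a → a ≠ c → b ≠ d → False)
    (h6 : ∀ a b c d e f, G.Adj a b → G.Adj b c → G.Adj c d → G.Adj d e → G.Adj e f →
      G.Adj f a → [a, b, c, d, e, f].Nodup → False)
    (M : Fin 3 → Set (Sym2 V)) (hM : ∀ i, IsOneFactor G (M i)) :
    4 ≤ (uncovered G M).ncard := by
  classical
  choose f hadj hinv hmem using fun i => exists_partner G (M i) (hM i)
  -- `U v w`: the edge `vw` is uncovered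
  set U : V → V → Prop := fun v w => G.Adj v w ∧ ∀ i, f i v ≠ w with hU
  have hUmem : ∀ v w, U v w → s(v, w) ∈ uncovered G M := by
    rintro v w ⟨h, h'⟩
    refine ⟨h, ?_⟩
    simp only [Set.mem_iUnion, not_exists]
    intro i hi
    exact h' i ((hmem i v w).1 hi)
  have hUsymm : ∀ v w, U v w → U w v := by
    rintro v w ⟨h, h'⟩
    refine ⟨h.symm, fun i hi => h' i ?_⟩
    rw [← hi, hinv]
  by_contra hlt
  have hfour : ∀ e1 e2 e3 e4 : Sym2 V, e1 ∈ uncovered G M → e2 ∈ uncovered G M →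
      e3 ∈ uncovered G M → e4 ∈ uncovered G M → [e1, e2, e3, e4].Nodup → False := by
    intro e1 e2 e3 e4 m1 m2 m3 m4 hnd
    apply hlt
    have hsub : (([e1, e2, e3, e4].toFinset : Finset (Sym2 V)) : Set (Sym2 V)) ⊆
        uncovered G M := by
      intro e he
      simp only [List.coe_toFinset, List.mem_cons, List.not_mem_nil, or_false,
        Set.mem_ofPred_eq] at he
      rcases he with rfl | rfl | rfl | rfl <;> assumption
    have hc := Set.ncard_le_ncard hsub (Set.toFinite _)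
    rw [Set.ncard_coe_finset, List.toFinset_card_of_nodup hnd] at hc
    simpa using hc
  -- not all three partners coincide
  have hL2 : ∀ v, ¬ (f 0 v = f 1 v ∧ f 0 v = f 2 v) := by
    rintro v ⟨h01, h02⟩
    have hv : ∀ i, f i v = f 0 v := by
      intro i
      fin_cases i
      · rfl
      · exact h01.symm
      · exact h02.symm
    have hw : ∀ i, f i (f 0 v) = v := by
      intro i
      rw [← hv i, hinv]
    obtain ⟨a, b, c, hab, hac, hbc, hN⟩ := nbrs G h3 v
    obtain ⟨a', b', c', hab', hac', hbc', hN'⟩ := nbrs G h3 (f 0 v)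
    have hvw : v ≠ f 0 v := (hadj 0 v).ne
    -- two uncovered edges at v
    have h2 : ∃ x y, x ≠ y ∧ x ≠ f 0 v ∧ y ≠ f 0 v ∧ G.Adj v x ∧ G.Adj v y := by
      rcases (hN _).1 (hadj 0 v) with h | h | h
      · exact ⟨b, c, hbc, by rw [h]; exact hab.symm, by rw [h]; exact hac.symm,
          (hN _).2 (by simp), (hN _).2 (by simp)⟩
      · exact ⟨a, c, hac, by rw [h]; exact hab, by rw [h]; exact hbc.symm,
          (hN _).2 (by simp), (hN _).2 (by simp)⟩
      · exact ⟨a, b, hab, by rw [h]; exact hac, by rw [h]; exact hbc,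
          (hN _).2 (by simp), (hN _).2 (by simp)⟩
    have h2' : ∃ x y, x ≠ y ∧ x ≠ v ∧ y ≠ v ∧ G.Adj (f 0 v) x ∧ G.Adj (f 0 v) y := by
      rcases (hN' _).1 (hadj 0 v).symm with h | h | h
      · exact ⟨b', c', hbc', by rw [h]; exact hab'.symm, by rw [h]; exact hac'.symm,
          (hN' _).2 (by simp), (hN' _).2 (by simp)⟩
      · exact ⟨a', c', hac', by rw [h]; exact hab', by rw [h]; exact hbc'.symm,
          (hN' _).2 (by simp), (hN' _).2 (by simp)⟩
      · exact ⟨a', b', hab', by rw [h]; exact hac', by rw [h]; exact hbc',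
          (hN' _).2 (by simp), (hN' _).2 (by simp)⟩
    obtain ⟨x, y, hxy, hx, hy, hvx, hvy⟩ := h2
    obtain ⟨x', y', hxy', hx', hy', hvx', hvy'⟩ := h2'
    have u1 : U v x := ⟨hvx, fun i => by rw [hv i]; exact hx.symm⟩
    have u2 : U v y := ⟨hvy, fun i => by rw [hv i]; exact hy.symm⟩
    have u3 : U (f 0 v) x' := ⟨hvx', fun i => by rw [hw i]; exact hx'.symm⟩
    have u4 : U (f 0 v) y' := ⟨hvy', fun i => by rw [hw i]; exact hy'.symm⟩
    refine hfour _ _ _ _ (hUmem _ _ u1) (hUmem _ _ u2) (hUmem _ _ u3) (hUmem _ _ u4) ?_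
    simp only [List.nodup_cons, List.mem_cons, List.not_mem_nil, or_false, not_or,
      List.nodup_nil, and_true, Sym2.eq_iff, not_false_eq_true]
    grind
  set D : V → V → Prop := fun v d => ∃ i j, i ≠ j ∧ f i v = d ∧ f j v = d with hD
  have hDadj : ∀ v d, D v d → G.Adj v d := by
    rintro v d ⟨i, j, _, h, _⟩
    rw [← h]
    exact hadj i v
  have hDsymm : ∀ v d, D v d → D d v := by
    rintro v d ⟨i, j, hij, h, h'⟩
    exact ⟨i, j, hij, by rw [← h, hinv], by rw [← h', hinv]⟩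
  have hDuniq : ∀ v d d', D v d → D v d' → d = d' := by
    rintro v d d' ⟨i, j, hij, h, h'⟩ ⟨k, l, hkl, g, g'⟩
    have : i = k ∨ i = l ∨ j = k ∨ j = l := by omega
    rcases this with rfl | rfl | rfl | rfl
    · rw [← h, ← g]
    · rw [← h, ← g']
    · rw [← h', ← g]
    · rw [← h', ← g']
  have hUD : ∀ v u, U v u → ∃ d, D v d := by
    rintro v u ⟨hvu, hn⟩
    by_contra hno
    have hinj : ∀ i j, i ≠ j → f i v ≠ f j v := by
      intro i j hij he
      exact hno ⟨f i v, i, j, hij, rfl, he.symm⟩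
    obtain ⟨a, b, c, hab, hac, hbc, hN⟩ := nbrs G h3 v
    have e0 := (hN _).1 (hadj 0 v)
    have e1 := (hN _).1 (hadj 1 v)
    have e2 := (hN _).1 (hadj 2 v)
    have eu := (hN _).1 hvu
    have n0 := hn 0
    have n1 := hn 1
    have n2 := hn 2
    have i01 := hinj 0 1 (by decide)
    have i02 := hinj 0 2 (by decide)
    have i12 := hinj 1 2 (by decide)
    grind
  have hDU : ∀ v d, D v d → ∃ u, U v u := by
    rintro v d ⟨i, j, hij, h, h'⟩
    obtain ⟨a, b, c, hab, hac, hbc, hN⟩ := nbrs G h3 v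
    by_contra hno
    have hsurj : ∀ w, G.Adj v w → ∃ k, f k v = w := by
      intro w hw
      by_contra hk
      push Not at hk
      exact hno ⟨w, hw, hk⟩
    obtain ⟨ka, hka⟩ := hsurj a ((hN _).2 (by simp))
    obtain ⟨kb, hkb⟩ := hsurj b ((hN _).2 (by simp))
    obtain ⟨kc, hkc⟩ := hsurj c ((hN _).2 (by simp))
    have kab : ka ≠ kb := by rintro rfl; exact hab (hka.symm.trans hkb)
    have kac : ka ≠ kc := by rintro rfl; exact hac (hka.symm.trans hkc)
    have kbc : kb ≠ kc := by rintro rfl; exact hbc (hkb.symm.trans hkc)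
    have hall : ∀ k : Fin 3, k = ka ∨ k = kb ∨ k = kc := by omega
    have hi := hall i
    have hj := hall j
    grind
  have hUuniq : ∀ v u u', U v u → U v u' → u = u' := by
    rintro v u u' ⟨hvu, hn⟩ ⟨hvu', hn'⟩
    by_contra hne
    obtain ⟨a, b, c, hab, hac, hbc, hN⟩ := nbrs G h3 v
    have e0 := (hN _).1 (hadj 0 v)
    have e1 := (hN _).1 (hadj 1 v)
    have e2 := (hN _).1 (hadj 2 v)
    have eu := (hN _).1 hvu
    have eu' := (hN _).1 hvu'
    have n0 := hn 0
    have n1 := hn 1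
    have n2 := hn 2
    have n0' := hn' 0
    have n1' := hn' 1
    have n2' := hn' 2
    apply hL2 v
    grind
  have hUDne : ∀ v u d, U v u → D v d → u ≠ d := by
    rintro v u d ⟨_, hn⟩ ⟨i, _, _, h, _⟩ rfl
    exact hn i h
  -- some edge is uncovered
  have hex : ∃ v u, U v u := by
    by_contra hno
    push Not at hno
    apply hcol
    have hsurj : ∀ v w, G.Adj v w → ∃ k, f k v = w := by
      intro v w hw
      by_contra hk
      push Not at hk
      exact hno v w ⟨hw, hk⟩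
    have hinj : ∀ v i j, f i v = f j v → i = j := by
      intro v i j hij
      by_contra hne
      obtain ⟨u, hu⟩ := hDU v (f i v) ⟨i, j, hne, rfl, hij.symm⟩
      exact hno v u hu
    refine ⟨fun e => if e ∈ M 0 then 0 else if e ∈ M 1 then 1 else 2, ?_⟩
    have hc : ∀ u i, (if s(u, f i u) ∈ M 0 then (0 : Fin 3) else
        if s(u, f i u) ∈ M 1 then 1 else 2) = i := by
      intro u i
      rw [hmem 0, hmem 1]
      have a0 : f 0 u = f i u ↔ 0 = i := ⟨hinj u 0 i, by rintro rfl; rfl⟩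
      have a1 : f 1 u = f i u ↔ 1 = i := ⟨hinj u 1 i, by rintro rfl; rfl⟩
      rw [a0, a1]
      fin_cases i <;> simp
    intro u v w hv hw hvw
    obtain ⟨i, rfl⟩ := hsurj u v hv
    obtain ⟨j, rfl⟩ := hsurj u w hw
    simp only [hc]
    rintro rfl
    exact hvw rfl
  obtain ⟨v0, v1, u01⟩ := hex
  have u10 := hUsymm _ _ u01
  obtain ⟨v2, d12⟩ := hUD _ _ u10
  have d21 := hDsymm _ _ d12
  obtain ⟨v3, u23⟩ := hDU _ _ d21
  have u32 := hUsymm _ _ u23
  obtain ⟨v4, d34⟩ := hUD _ _ u32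
  have d43 := hDsymm _ _ d34
  obtain ⟨v5, u45⟩ := hDU _ _ d43
  have u54 := hUsymm _ _ u45
  obtain ⟨v6, d56⟩ := hUD _ _ u54
  have d65 := hDsymm _ _ d56
  obtain ⟨v7, u67⟩ := hDU _ _ d65
  have n01 : v0 ≠ v1 := u01.1.ne
  have n12 : v1 ≠ v2 := (hDadj _ _ d12).ne
  have n02 : v0 ≠ v2 := hUDne _ _ _ u10 d12
  have n23 : v2 ≠ v3 := u23.1.ne
  have n13 : v1 ≠ v3 := (hUDne _ _ _ u23 d21).symm
  have n03 : v0 ≠ v3 := by rintro rfl; exact n12 (hUuniq _ _ _ u01 u32)
  have n34 : v3 ≠ v4 := (hDadj _ _ d34).ne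
  have n24 : v2 ≠ v4 := hUDne _ _ _ u32 d34
  have n14 : v1 ≠ v4 := by rintro rfl; exact n23 (hDuniq _ _ _ d12 d43)
  have n04 : v0 ≠ v4 := by
    rintro rfl
    exact h4 v0 v1 v2 v3 u01.1 (hDadj _ _ d12) u23.1 (hDadj _ _ d34) n02 n13
  have n45 : v4 ≠ v5 := u45.1.ne
  have n35 : v3 ≠ v5 := (hUDne _ _ _ u45 d43).symm
  have n25 : v2 ≠ v5 := by rintro rfl; exact n34 (hUuniq _ _ _ u23 u54)
  have n15 : v1 ≠ v5 := by rintro rfl; exact n04 (hUuniq _ _ _ u10 u54)
  have n05 : v0 ≠ v5 := by rintro rfl; exact n14 (hUuniq _ _ _ u01 u54)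
  have n56 : v5 ≠ v6 := (hDadj _ _ d56).ne
  have n46 : v4 ≠ v6 := hUDne _ _ _ u54 d56
  have n36 : v3 ≠ v6 := by rintro rfl; exact n45 (hDuniq _ _ _ d34 d65)
  have n26 : v2 ≠ v6 := by rintro rfl; exact n15 (hDuniq _ _ _ d21 d65)
  have n16 : v1 ≠ v6 := by rintro rfl; exact n25 (hDuniq _ _ _ d12 d65)
  have n06 : v0 ≠ v6 := by
    rintro rfl
    apply h6 v0 v1 v2 v3 v4 v5 u01.1 (hDadj _ _ d12) u23.1 (hDadj _ _ d34) u45.1
      (hDadj _ _ d56)
    simp only [List.nodup_cons, List.mem_cons, List.not_mem_nil, or_false, not_or,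
      List.nodup_nil, and_true, not_false_eq_true]
    exact ⟨⟨n01, n02, n03, n04, n05⟩, ⟨n12, n13, n14, n15⟩, ⟨n23, n24, n25⟩, ⟨n34, n35⟩, n45⟩
  refine hfour _ _ _ _ (hUmem _ _ u01) (hUmem _ _ u23) (hUmem _ _ u45) (hUmem _ _ u67) ?_
  simp only [List.nodup_cons, List.mem_cons, List.not_mem_nil, or_false, not_or,
    List.nodup_nil, and_true, Sym2.eq_iff, not_false_eq_true]
  grind

theorem three_lt_mu (G : SimpleGraph V) [DecidableRel G.Adj] (h3 : G.IsRegularOfDegree 3)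
    (hcol : ¬ ThreeEdgeColourable G)
    (h4 : ∀ a b c d, G.Adj a b → G.Adj b c → G.Adj c d → G.Adj d a → a ≠ c → b ≠ d → False)
    (h6 : ∀ a b c d e f, G.Adj a b → G.Adj b c → G.Adj c d → G.Adj d e → G.Adj e f →
      G.Adj f a → [a, b, c, d, e, f].Nodup → False)
    (M : Set (Sym2 V)) (hM : IsOneFactor G M) : 3 < mu 3 G := by
  refine Nat.lt_of_succ_le (le_csInf ?_ ?_)
  · exact ⟨_, fun _ => M, fun _ => hM, rfl⟩
  · rintro m ⟨M', hM', rfl⟩
    exact four_le_uncovered G h3 hcol h4 h6 M' hM'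

end Pool.Agent.H840R4.Defect
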