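import Pool.Agent.H840R4.Data58
import Pool.Agent.H840R4.Cubic

/-!
# Verification of the data of `Data58`
-/

set_option autoImplicit false

namespace Pool.Agent.H840R4.Graph58

open Pool.Agent.H840R4.Trie Pool.Agent.H840R4.Data58 Pool.Agent.H840R4.Defect
  Pool.Agent.H840R4.Cubic

/-- The graph with neighbour table `tab`. -/
def G : SimpleGraph (Fin 58) where
  Adj a b := b.val ∈ tab.getD a.val []
  symm := ⟨by decide +kernel⟩
  loopless := ⟨by decide +kernel⟩

instance : DecidableRel G.Adj := fun a b => inferInstanceAs (Decidable (b.val ∈ tab.getD a.val []))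

/-- packed neighbour function -/
def nbc (a j : ℕ) : ℕ := Nat.land (Nat.shiftRight packed (6 * (3 * a + j))) 63

theorem tab_eq : ∀ a : Fin 58, tab.getD a.val [] = [nbc a 0, nbc a 1, nbc a 2] := by
  decide +kernel

theorem adj_iff (a b : Fin 58) :
    G.Adj a b ↔ b.val = nbc a 0 ∨ b.val = nbc a 1 ∨ b.val = nbc a 2 := by
  show b.val ∈ tab.getD a.val [] ↔ _
  rw [tab_eq]
  simp

theorem regular : G.IsRegularOfDegree 3 := by
  have h : ∀ v : Fin 58, G.degree v = 3 := by decide +kernel
  exact h

/-! ### short cycles -/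

def all3 (p : ℕ → Bool) : Bool := p 0 && (p 1 && p 2)

theorem all3_iff (p : ℕ → Bool) (h : all3 p = true) : p 0 = true ∧ p 1 = true ∧ p 2 = true := by
  simpa [all3] using h

def adjB (a b : ℕ) : Bool := Nat.beq b (nbc a 0) || (Nat.beq b (nbc a 1) || Nat.beq b (nbc a 2))

theorem adjB_iff (a b : Fin 58) : adjB a b = true ↔ G.Adj a b := by
  rw [adj_iff]
  simp [adjB, Nat.beq_eq]

theorem all3_nb (a b : Fin 58) (p : ℕ → Bool) (h : all3 (fun j => p (nbc a j)) = true)
    (hab : G.Adj a b) : p b = true := by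
  obtain ⟨h0, h1, h2⟩ := all3_iff _ h
  rcases (adj_iff a b).1 hab with e | e | e
  · rw [e]; exact h0
  · rw [e]; exact h1
  · rw [e]; exact h2

/-- no cycles of length 3, 4 or 6 through `a` -/
def chkCyc (a : ℕ) : Bool :=
  all3 fun j1 => (fun b => all3 fun j2 => (fun c =>
    Nat.beq c a || (!(adjB c a) && all3 fun j3 => (fun d =>
      Nat.beq d b || (!(adjB d a) && all3 fun j4 => (fun e =>
        Nat.beq e c || all3 fun j5 => (fun f =>
          Nat.beq f d || Nat.beq e a || !(adjB f a)) (nbc e j5)) (nbc d j4))) (nbc c j3)))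
            (nbc b j2)) (nbc a j1)

theorem chkCyc_all : ∀ a : Fin 58, chkCyc a = true := by decide +kernel

theorem no3 (a b c : Fin 58) (h1 : G.Adj a b) (h2 : G.Adj b c) (h3 : G.Adj c a) : False := by
  have h := chkCyc_all a
  have h := all3_nb a b (fun b => all3 fun j2 => (fun c =>
    Nat.beq c a || (!(adjB c a) && all3 fun j3 => (fun d =>
      Nat.beq d b || (!(adjB d a) && all3 fun j4 => (fun e =>
        Nat.beq e c || all3 fun j5 => (fun f =>
          Nat.beq f d || Nat.beq e a || !(adjB f a)) (nbc e j5)) (nbc d j4))) (nbc c j3)))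
            (nbc b j2)) h h1
  have h := all3_nb b c (fun c =>
    Nat.beq c a || (!(adjB c a) && all3 fun j3 => (fun d =>
      Nat.beq d b || (!(adjB d a) && all3 fun j4 => (fun e =>
        Nat.beq e c || all3 fun j5 => (fun f =>
          Nat.beq f d || Nat.beq e a || !(adjB f a)) (nbc e j5)) (nbc d j4))) (nbc c j3))) h h2
  have hca : ¬ (c : ℕ) = a := fun e => h3.ne (Fin.ext e)
  have h3' := (adjB_iff c a).2 h3
  simp only [Bool.or_eq_true, Nat.beq_eq, hca, false_or, Bool.and_eq_true, h3'] at h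
  simp at h

theorem no4 (a b c d : Fin 58) (h1 : G.Adj a b) (h2 : G.Adj b c) (h3 : G.Adj c d)
    (h4 : G.Adj d a) (hac : a ≠ c) (hbd : b ≠ d) : False := by
  have h := chkCyc_all a
  have h := all3_nb a b (fun b => all3 fun j2 => (fun c =>
    Nat.beq c a || (!(adjB c a) && all3 fun j3 => (fun d =>
      Nat.beq d b || (!(adjB d a) && all3 fun j4 => (fun e =>
        Nat.beq e c || all3 fun j5 => (fun f =>
          Nat.beq f d || Nat.beq e a || !(adjB f a)) (nbc e j5)) (nbc d j4))) (nbc c j3)))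
            (nbc b j2)) h h1
  have h := all3_nb b c (fun c =>
    Nat.beq c a || (!(adjB c a) && all3 fun j3 => (fun d =>
      Nat.beq d b || (!(adjB d a) && all3 fun j4 => (fun e =>
        Nat.beq e c || all3 fun j5 => (fun f =>
          Nat.beq f d || Nat.beq e a || !(adjB f a)) (nbc e j5)) (nbc d j4))) (nbc c j3))) h h2
  have hca : ¬ (c : ℕ) = a := fun e => hac (Fin.ext e).symm
  simp only [Bool.or_eq_true, Nat.beq_eq, hca, false_or, Bool.and_eq_true] at h
  have h := all3_nb c d (fun d =>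
      Nat.beq d b || (!(adjB d a) && all3 fun j4 => (fun e =>
        Nat.beq e c || all3 fun j5 => (fun f =>
          Nat.beq f d || Nat.beq e a || !(adjB f a)) (nbc e j5)) (nbc d j4))) h.2 h3
  have hdb : ¬ (d : ℕ) = b := fun e => hbd (Fin.ext e).symm
  have h4' := (adjB_iff d a).2 h4
  simp only [Bool.or_eq_true, Nat.beq_eq, hdb, false_or, Bool.and_eq_true, h4'] at h
  simp at h

theorem no6 (a b c d e f : Fin 58) (h1 : G.Adj a b) (h2 : G.Adj b c) (h3 : G.Adj c d)
    (h4 : G.Adj d e) (h5 : G.Adj e f) (h6 : G.Adj f a) (hnd : [a, b, c, d, e, f].Nodup) :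
    False := by
  simp only [List.nodup_cons, List.mem_cons, List.not_mem_nil, or_false, not_or,
    List.nodup_nil, and_true, not_false_eq_true] at hnd
  obtain ⟨⟨hab, hac, had, hae, haf⟩, ⟨hbc, hbd, hbe, hbf⟩, ⟨hcd, hce, hcf⟩, ⟨hde, hdf⟩, hef⟩ := hnd
  have h := chkCyc_all a
  have h := all3_nb a b (fun b => all3 fun j2 => (fun c =>
    Nat.beq c a || (!(adjB c a) && all3 fun j3 => (fun d =>
      Nat.beq d b || (!(adjB d a) && all3 fun j4 => (fun e =>
        Nat.beq e c || all3 fun j5 => (fun f =>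
          Nat.beq f d || Nat.beq e a || !(adjB f a)) (nbc e j5)) (nbc d j4))) (nbc c j3)))
            (nbc b j2)) h h1
  have h := all3_nb b c (fun c =>
    Nat.beq c a || (!(adjB c a) && all3 fun j3 => (fun d =>
      Nat.beq d b || (!(adjB d a) && all3 fun j4 => (fun e =>
        Nat.beq e c || all3 fun j5 => (fun f =>
          Nat.beq f d || Nat.beq e a || !(adjB f a)) (nbc e j5)) (nbc d j4))) (nbc c j3))) h h2
  have hca : ¬ (c : ℕ) = a := fun e => hac (Fin.ext e).symm
  simp only [Bool.or_eq_true, Nat.beq_eq, hca, false_or, Bool.and_eq_true] at h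
  have h := all3_nb c d (fun d =>
      Nat.beq d b || (!(adjB d a) && all3 fun j4 => (fun e =>
        Nat.beq e c || all3 fun j5 => (fun f =>
          Nat.beq f d || Nat.beq e a || !(adjB f a)) (nbc e j5)) (nbc d j4))) h.2 h3
  have hdb : ¬ (d : ℕ) = b := fun e => hbd (Fin.ext e).symm
  simp only [Bool.or_eq_true, Nat.beq_eq, hdb, false_or, Bool.and_eq_true] at h
  have h := all3_nb d e (fun e =>
        Nat.beq e c || all3 fun j5 => (fun f =>
          Nat.beq f d || Nat.beq e a || !(adjB f a)) (nbc e j5)) h.2 h4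
  have hec : ¬ (e : ℕ) = c := fun e => hce (Fin.ext e).symm
  simp only [Bool.or_eq_true, Nat.beq_eq, hec, false_or] at h
  have h := all3_nb e f (fun f =>
          Nat.beq f d || Nat.beq e a || !(adjB f a)) h h5
  have hfd : ¬ (f : ℕ) = d := fun e => hdf (Fin.ext e).symm
  have hea : ¬ (e : ℕ) = a := fun e => hae (Fin.ext e).symm
  have h6' := (adjB_iff f a).2 h6
  simp only [Bool.or_eq_true, Nat.beq_eq, hfd, hea, false_or, h6'] at h
  simp at h

end Pool.Agent.H840R4.Graph58
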