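import Pool.Agent.H840R4.Graph58

/-!
# Verification of the data of `Data58`, second part
-/

set_option autoImplicit false

namespace Pool.Agent.H840R4.Graph58

open Pool.Agent.H840R4.Trie Pool.Agent.H840R4.Data58 Pool.Agent.H840R4.Defect
  Pool.Agent.H840R4.Cubic

def vx (k : ℕ) : Fin 58 := Fin.ofNat 58 k

/-- packed list of edge endpoints -/
def e1 (i : ℕ) : ℕ := (edgeL.getD i (0, 0)).1
def e2 (i : ℕ) : ℕ := (edgeL.getD i (0, 0)).2

def E1 (i : Fin 87) : Fin 58 := vx (e1 i)
def E2 (i : Fin 87) : Fin 58 := vx (e2 i)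
def inc (v : Fin 58) (j : Fin 3) : Fin 87 := Fin.ofNat 87 ((incL.getD v []).getD j 0)
def nb (v : Fin 58) (j : Fin 3) : Fin 58 := vx (nbc v j)
def phi (i : Fin 87) : ℕ := phiL.getD i 0

theorem adj_nb (a b : Fin 58) : G.Adj a b ↔ ∃ j, b = nb a j := by
  have h : ∀ a : Fin 58, ∀ j : Fin 3, nbc a j < 58 := by decide +kernel
  have key : ∀ j : Fin 3, (b = nb a j ↔ b.val = nbc a j) := by
    intro j
    rw [Fin.ext_iff]
    have : (nb a j).val = nbc a j := by
      show nbc a j % 58 = nbc a j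
      exact Nat.mod_eq_of_lt (h a j)
    rw [this]
  rw [adj_iff]
  constructor
  · rintro (e | e | e)
    · exact ⟨0, (key 0).2 e⟩
    · exact ⟨1, (key 1).2 e⟩
    · exact ⟨2, (key 2).2 e⟩
  · rintro ⟨j, hj⟩
    have := (key j).1 hj
    fin_cases j
    · exact Or.inl this
    · exact Or.inr (Or.inl this)
    · exact Or.inr (Or.inr this)

theorem hE : ∀ i : Fin 87, G.Adj (E1 i) (E2 i) := by decide +kernel

theorem inc_spec : ∀ v : Fin 58, ∀ j : Fin 3,
    (E1 (inc v j) = v ∧ E2 (inc v j) = nb v j) ∨ (E1 (inc v j) = nb v j ∧ E2 (inc v j) = v) := by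
  decide +kernel

theorem inc_complete : ∀ i : Fin 87, (∃ j, inc (E1 i) j = i ∧ nb (E1 i) j = E2 i) ∧
    (∃ j, inc (E2 i) j = i ∧ nb (E2 i) j = E1 i) := by
  decide +kernel

theorem nb_inj : ∀ v : Fin 58, ∀ j j' : Fin 3, nb v j = nb v j' → j = j' := by decide +kernel

theorem hincne : ∀ v, inc v 0 ≠ inc v 1 ∧ inc v 0 ≠ inc v 2 ∧ inc v 1 ≠ inc v 2 := by
  decide +kernel

theorem hEinj (i j : Fin 87) (h : s(E1 i, E2 i) = s(E1 j, E2 j)) : i = j := by
  obtain ⟨⟨a, ha, ha'⟩, ⟨b, hb, hb'⟩⟩ := inc_complete i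
  obtain ⟨⟨a', ha1, ha1'⟩, ⟨b', hb1, hb1'⟩⟩ := inc_complete j
  rcases Sym2.eq_iff.1 h with ⟨h1, h2⟩ | ⟨h1, h2⟩
  · rw [h1] at ha ha'
    have : a = a' := nb_inj (E1 j) a a' (by rw [ha', ha1', h2])
    exact ha.symm.trans (by rw [this]; exact ha1)
  · rw [h1] at ha ha'
    have : a = b' := nb_inj (E2 j) a b' (by rw [ha', hb1', h2])
    exact ha.symm.trans (by rw [this]; exact hb1)

theorem hEsurj (a b : Fin 58) (hab : G.Adj a b) : ∃ i, s(E1 i, E2 i) = s(a, b) := by
  obtain ⟨j, rfl⟩ := (adj_nb a b).1 hab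
  refine ⟨inc a j, ?_⟩
  rcases inc_spec a j with ⟨h1, h2⟩ | ⟨h1, h2⟩
  · rw [h1, h2]
  · rw [h1, h2, Sym2.eq_swap]

theorem fin3 (j : Fin 3) : j = 0 ∨ j = 1 ∨ j = 2 := by omega

theorem hinc (v : Fin 58) (i : Fin 87) :
    (E1 i = v ∨ E2 i = v) ↔ (i = inc v 0 ∨ i = inc v 1 ∨ i = inc v 2) := by
  constructor
  · rintro (rfl | rfl)
    · obtain ⟨j, hj, _⟩ := (inc_complete i).1
      rcases fin3 j with rfl | rfl | rfl
      · exact Or.inl hj.symm
      · exact Or.inr (Or.inl hj.symm)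
      · exact Or.inr (Or.inr hj.symm)
    · obtain ⟨j, hj, _⟩ := (inc_complete i).2
      rcases fin3 j with rfl | rfl | rfl
      · exact Or.inl hj.symm
      · exact Or.inr (Or.inl hj.symm)
      · exact Or.inr (Or.inr hj.symm)
  · have key : ∀ j, i = inc v j → (E1 i = v ∨ E2 i = v) := by
      rintro j rfl
      rcases inc_spec v j with ⟨h1, _⟩ | ⟨_, h2⟩
      · exact Or.inl h1
      · exact Or.inr h2
    rintro (h | h | h)
    · exact key 0 h
    · exact key 1 h
    · exact key 2 h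

theorem hflow : ∀ v : Fin 58, phi (inc v 0) ^^^ (phi (inc v 1) ^^^ phi (inc v 2)) = 0 := by
  decide +kernel

theorem hone : ∀ i : Fin 87, phi i ≠ 0 := by decide +kernel

/-- `w` does not occur in the list -/
def notIn (w : ℕ) : List ℕ → Bool
  | [] => true
  | x :: l => if Nat.beq w x then false else notIn w l

theorem notIn_spec (w : ℕ) (l : List ℕ) (h : notIn w l = true) : w ∉ l := by
  induction l with
  | nil => simp
  | cons x l ih =>
    unfold notIn at h
    split_ifs at h with h1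
    simp only [List.mem_cons, not_or]
    exact ⟨fun e => h1 (by rw [e]; simp), ih h⟩

def share (p q : ℕ × ℕ) : Bool :=
  Nat.beq p.1 q.1 || (Nat.beq p.1 q.2 || (Nat.beq p.2 q.1 || Nat.beq p.2 q.2))

/-- edges without a common endpoint: the sum of the flow values is not a flow value -/
def chk2 (i : ℕ) : Bool :=
  (fun p => (fun x => (List.range 87).all fun j =>
    share p (edgeL.getD j (0, 0)) || notIn (Nat.xor x (phiL.getD j 0)) phiL)
      (phiL.getD i 0)) (edgeL.getD i (0, 0))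

theorem chk2_all : ∀ i : Fin 87, chk2 i = true := by decide +kernel

theorem phi_nodup : phiL.Nodup := by decide +kernel

theorem phi_len : phiL.length = 87 := by decide +kernel

theorem phi_mem (i : Fin 87) : phi i ∈ phiL := by
  unfold phi
  have : i.val < phiL.length := by rw [phi_len]; exact i.isLt
  rw [List.getD_eq_getElem?_getD, List.getElem?_eq_getElem this]
  simp

theorem phi_inj (i j : Fin 87) (h : phi i = phi j) : i = j := by
  unfold phi at h
  have hi : i.val < phiL.length := by rw [phi_len]; exact i.isLt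
  have hj : j.val < phiL.length := by rw [phi_len]; exact j.isLt
  rw [List.getD_eq_getElem?_getD, List.getElem?_eq_getElem hi, List.getD_eq_getElem?_getD,
    List.getElem?_eq_getElem hj] at h
  simp only [Option.getD_some] at h
  exact Fin.ext ((List.Nodup.getElem_inj_iff phi_nodup).1 h)

theorem htwo (i j : Fin 87) (h : phi i ^^^ phi j = 0) : i = j :=
  phi_inj i j (Nat.xor_eq_zero_iff.1 h)

theorem e_lt : ∀ i : Fin 87, e1 i < 58 ∧ e2 i < 58 := by decide +kernel

theorem E1_val (i : Fin 87) : (E1 i).val = e1 i := Nat.mod_eq_of_lt (e_lt i).1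
theorem E2_val (i : Fin 87) : (E2 i).val = e2 i := Nat.mod_eq_of_lt (e_lt i).2

theorem share_of (i j : Fin 87)
    (h : share (edgeL.getD i (0, 0)) (edgeL.getD j (0, 0)) = true) :
    ∃ v, (E1 i = v ∨ E2 i = v) ∧ (E1 j = v ∨ E2 j = v) := by
  unfold share at h
  simp only [Bool.or_eq_true, Nat.beq_eq] at h
  rcases h with h | h | h | h
  · exact ⟨E1 i, Or.inl rfl, Or.inl (Fin.ext (by rw [E1_val, E1_val]; exact h.symm))⟩
  · exact ⟨E1 i, Or.inl rfl, Or.inr (Fin.ext (by rw [E2_val, E1_val]; exact h.symm))⟩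
  · exact ⟨E2 i, Or.inr rfl, Or.inl (Fin.ext (by rw [E1_val, E2_val]; exact h.symm))⟩
  · exact ⟨E2 i, Or.inr rfl, Or.inr (Fin.ext (by rw [E2_val, E2_val]; exact h.symm))⟩

theorem hthree (i j l : Fin 87) (hij : i ≠ j) (hil : i ≠ l) (hjl : j ≠ l)
    (h : phi i ^^^ (phi j ^^^ phi l) = 0) :
    ∃ v, ∀ t, (t = i ∨ t = j ∨ t = l) ↔ (E1 t = v ∨ E2 t = v) := by
  have hx : phi i ^^^ phi j = phi l := by
    rw [← Nat.xor_assoc] at h
    exact Nat.xor_eq_zero_iff.1 h
  have hc := chk2_all i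
  unfold chk2 at hc
  have hc2 := (List.all_eq_true.1 hc) j.val (List.mem_range.2 j.isLt)
  rw [Bool.or_eq_true] at hc2
  rcases hc2 with hs | hn
  · obtain ⟨v, hi, hj⟩ := share_of i j hs
    refine ⟨v, ?_⟩
    rw [hinc] at hi hj
    have hf := hflow v
    obtain ⟨n1, n2, n3⟩ := hincne v
    -- the third edge at v
    have third : ∀ a b c : Fin 87, phi a ^^^ (phi b ^^^ phi c) = 0 → phi a ^^^ phi b = phi c := by
      intro a b c habc
      rw [← Nat.xor_assoc] at habc
      exact Nat.xor_eq_zero_iff.1 habc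
    have hl : l = inc v 0 ∨ l = inc v 1 ∨ l = inc v 2 := by
      have f01 := third _ _ _ hf
      have f02 : phi (inc v 0) ^^^ phi (inc v 2) = phi (inc v 1) := by
        apply third
        rw [Nat.xor_comm (phi (inc v 2))]
        exact hf
      have f12 : phi (inc v 1) ^^^ phi (inc v 2) = phi (inc v 0) :=
        (Nat.xor_eq_zero_iff.1 hf).symm
      rcases hi with hi | hi | hi <;> rcases hj with hj | hj | hj
      · exact absurd (hi.trans hj.symm) hij
      · right; right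
        apply phi_inj
        rw [← hx, hi, hj, f01]
      · right; left
        apply phi_inj
        rw [← hx, hi, hj, f02]
      · right; right
        apply phi_inj
        rw [← hx, hi, hj, Nat.xor_comm, f01]
      · exact absurd (hi.trans hj.symm) hij
      · left
        apply phi_inj
        rw [← hx, hi, hj, f12]
      · right; left
        apply phi_inj
        rw [← hx, hi, hj, Nat.xor_comm, f02]
      · left
        apply phi_inj
        rw [← hx, hi, hj, Nat.xor_comm, f12]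
      · exact absurd (hi.trans hj.symm) hij
    intro t
    rw [hinc]
    grind
  · exact absurd (phi_mem l) (by
      have := notIn_spec _ _ hn
      have e : Nat.xor (phiL.getD i.val 0) (phiL.getD j.val 0) = phi l := hx
      rw [e] at this
      exact this)

theorem hlower : ∀ v : Fin 58, v ≠ 0 → ∃ u, u < v ∧ G.Adj v u := by
  have h : ∀ v : Fin 58, v ≠ 0 → nb v 0 < v ∧ G.Adj v (nb v 0) := by decide +kernel
  intro v hv
  exact ⟨nb v 0, h v hv⟩

theorem cyc4 : CyclicallyEdgeConnected 4 G :=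
  cyclically_four G 87 E1 E2 inc phi hE hEinj hEsurj hinc hincne hflow hone htwo hthree
    (const_of_lower (n := 57) G hlower)

/-! ### colourings -/

def adjE (i j : ℕ) : Bool :=
  (Nat.blt i 87 && Nat.blt j 87) && (!(Nat.beq i j) &&
    share (edgeL.getD i (0, 0)) (edgeL.getD j (0, 0)))

theorem sweep : (run adjE ops ([], T.f)).2.isE = true := by decide +kernel

theorem not_colourable : ¬ ThreeEdgeColourable G := by
  rintro ⟨c, hc⟩
  refine refute adjE ops sweep (fun i => (c s(vx (e1 i), vx (e2 i))).val) (fun i => Fin.isLt _) ?_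
  intro i j hij
  unfold adjE at hij
  simp only [Bool.and_eq_true, Bool.not_eq_true'] at hij
  obtain ⟨⟨hi, hj⟩, hne, hs⟩ := hij
  have hi' : i < 87 := by simpa [Nat.blt_eq] using hi
  have hj' : j < 87 := by simpa [Nat.blt_eq] using hj
  have hne' : i ≠ j := by
    rintro rfl
    simp at hne
  obtain ⟨v, h1, h2⟩ := share_of ⟨i, hi'⟩ ⟨j, hj'⟩ hs
  have hne2 : (⟨i, hi'⟩ : Fin 87) ≠ ⟨j, hj'⟩ := fun e => hne' (by simpa using e)
  have hE' := hE ⟨i, hi'⟩
  have hE2' := hE ⟨j, hj'⟩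
  have hin : s(E1 ⟨i, hi'⟩, E2 ⟨i, hi'⟩) ≠ s(E1 ⟨j, hj'⟩, E2 ⟨j, hj'⟩) :=
    fun e => hne2 (hEinj _ _ e)
  show (c s(E1 ⟨i, hi'⟩, E2 ⟨i, hi'⟩)).val ≠ (c s(E1 ⟨j, hj'⟩, E2 ⟨j, hj'⟩)).val
  intro he
  have he' := Fin.ext he
  generalize E1 ⟨i, hi'⟩ = a at *
  generalize E2 ⟨i, hi'⟩ = b at *
  generalize E1 ⟨j, hj'⟩ = a' at *
  generalize E2 ⟨j, hj'⟩ = b' at *
  rcases h1 with rfl | rfl <;> rcases h2 with rfl | rfl
  · exact hc _ _ _ hE' hE2' (fun e => hin (by rw [e])) he'
  · exact hc _ _ _ hE' hE2'.symm (fun e => hin (by rw [e, Sym2.eq_swap]))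
      (by rw [he', Sym2.eq_swap])
  · exact hc _ _ _ hE'.symm hE2' (fun e => hin (by rw [e, Sym2.eq_swap]))
      (by rw [Sym2.eq_swap, he'])
  · exact hc _ _ _ hE'.symm hE2'.symm (fun e => hin (by rw [e]))
      (by rw [Sym2.eq_swap, he', Sym2.eq_swap])

/-! ### 1-factor -/

def pm (v : Fin 58) : Fin 58 := vx (pmL.getD v 0)

theorem pm_spec : ∀ v : Fin 58, G.Adj v (pm v) ∧ pm (pm v) = v := by decide +kernel

theorem oneFactor : IsOneFactor G {e | ∃ v, e = s(v, pm v)} :=
  isOneFactor_of_partner G pm (fun v => (pm_spec v).1) (fun v => (pm_spec v).2)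

/-! ### Hamiltonian cycles of vertex-deleted subgraphs -/

def hamC (v : Fin 58) (i : ℕ) : Fin 58 := vx ((hamL.getD v []).getD i 0)

theorem ham_nodup : ∀ v : Fin 58, (hamL.getD v []).Nodup := by decide +kernel

theorem ham_len : ∀ v : Fin 58, (hamL.getD v []).length = 57 := by decide +kernel

theorem ham_lt : ∀ v : Fin 58, ∀ x ∈ hamL.getD v [], x < 58 ∧ x ≠ v.val := by decide +kernel

theorem ham_adj : ∀ v : Fin 58, ∀ i : Fin 57, G.Adj (hamC v i) (hamC v (i + 1 : Fin 57)) := by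
  decide +kernel

end Pool.Agent.H840R4.Graph58
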