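import Mathlib.Data.List.Basic
import Mathlib.Tactic

/-!
# Ternary tries and an elimination procedure refuting 3-edge-colourings

A trie describes a set of lists over {0,1,2}; `f` stands for all lists, `e` for the empty set.
`run` performs a frontier sweep; if it ends in the empty set, no colouring exists.
-/

set_option autoImplicit false

namespace Pool.Agent.H840R4.Trie

inductive T where
  | e : T
  | f : T
  | n : T → T → T → T

namespace T

def mem : T → List ℕ → Bool
  | .e, _ => false
  | .f, _ => true
  | .n _ _ _, [] => false
  | .n a b c, x :: l =>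
    match x with
    | 0 => mem a l
    | 1 => mem b l
    | _ => mem c l

def mk : T → T → T → T
  | .e, .e, .e => .e
  | a, b, c => .n a b c

def union : T → T → T
  | .e, t => t
  | .f, _ => .f
  | .n a b c, .e => .n a b c
  | .n _ _ _, .f => .f
  | .n a b c, .n a' b' c' => .n (union a a') (union b b') (union c c')

def excl : ℕ → ℕ → T → T
  | _, _, .e => .e
  | _, _, .f => .f
  | 0, 0, .n _ b c => mk .e b c
  | 0, 1, .n a _ c => mk a .e c
  | 0, _, .n a b _ => mk a b .e
  | d + 1, x, .n a b c => mk (excl d x a) (excl d x b) (excl d x c)

def neq : ℕ → ℕ → T → T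
  | _, _, .e => .e
  | _, _, .f => .f
  | 0, d, .n a b c => mk (excl d 0 a) (excl d 1 b) (excl d 2 c)
  | i + 1, d, .n a b c => mk (neq i d a) (neq i d b) (neq i d c)

def close : ℕ → T → T
  | _, .e => .e
  | _, .f => .f
  | 0, .n a b c => union (union a b) c
  | i + 1, .n a b c => mk (close i a) (close i b) (close i c)

def isE : T → Bool
  | .e => true
  | _ => false

theorem mem_n (a b c : T) (x : ℕ) (l : List ℕ) :
    mem (.n a b c) (x :: l) = if x = 0 then mem a l else if x = 1 then mem b l else mem c l := by
  match x with
  | 0 => rfl
  | 1 => rfl
  | k + 2 => simp [mem]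

theorem mem_mk (a b c : T) (x : ℕ) (l : List ℕ) :
    mem (mk a b c) (x :: l) = if x = 0 then mem a l else if x = 1 then mem b l else mem c l := by
  rcases a with _ | _ | _ <;> rcases b with _ | _ | _ <;> rcases c with _ | _ | _ <;>
    first
      | exact mem_n _ _ _ _ _
      | (simp [mk, mem])

theorem mem_union_left (a b : T) (l : List ℕ) (h : mem a l = true) : mem (union a b) l = true := by
  induction a generalizing b l with
  | e => simp [mem] at h
  | f => simp [union, mem]
  | n a1 a2 a3 ih1 ih2 ih3 =>
    cases b with
    | e => simpa [union] using h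
    | f => simp [union, mem]
    | n b1 b2 b3 =>
      cases l with
      | nil => simp [mem] at h
      | cons x l =>
        rw [mem_n] at h
        rw [union, mem_n]
        split_ifs at h ⊢
        · exact ih1 _ _ h
        · exact ih2 _ _ h
        · exact ih3 _ _ h

theorem mem_union_right (a b : T) (l : List ℕ) (h : mem b l = true) :
    mem (union a b) l = true := by
  induction a generalizing b l with
  | e => simpa [union] using h
  | f => simp [union, mem]
  | n a1 a2 a3 ih1 ih2 ih3 =>
    cases b with
    | e => simp [mem] at h
    | f => simp [union, mem]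
    | n b1 b2 b3 =>
      cases l with
      | nil => simp [mem] at h
      | cons x l =>
        rw [mem_n] at h
        rw [union, mem_n]
        split_ifs at h ⊢
        · exact ih1 _ _ h
        · exact ih2 _ _ h
        · exact ih3 _ _ h

theorem mem_excl (t : T) : ∀ (d x : ℕ) (l : List ℕ), mem t l = true → (∀ y ∈ l, y < 3) → x < 3 →
    d < l.length → l.getD d 0 ≠ x → mem (excl d x t) l = true := by
  induction t with
  | e => intro d x l h; simp [mem] at h
  | f => intro d x l _ _ _ _ _; simp [excl, mem]
  | n a b c iha ihb ihc =>
    intro d x l h h3 hx hd hne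
    cases l with
    | nil => simp at hd
    | cons y l =>
      rw [mem_n] at h
      have hy : y < 3 := h3 y (by simp)
      cases d with
      | zero =>
        simp only [List.getD_cons_zero] at hne
        rcases (by omega : x = 0 ∨ x = 1 ∨ x = 2) with rfl | rfl | rfl
        · rw [excl, mem_mk]
          rw [if_neg hne] at h ⊢
          exact h
        · rw [excl, mem_mk]
          rw [if_neg hne] at h ⊢
          exact h
        · rw [excl, mem_mk]
          · rcases (by omega : y = 0 ∨ y = 1) with rfl | rfl
            · simpa using h
            · simpa using h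
          · simp
          · simp
      | succ d =>
        simp only [List.getD_cons_succ] at hne
        simp only [List.length_cons, add_lt_add_iff_right] at hd
        have h3' : ∀ y ∈ l, y < 3 := fun z hz => h3 z (by simp [hz])
        rw [excl, mem_mk]
        split_ifs at h ⊢
        · exact iha _ _ _ h h3' hx hd hne
        · exact ihb _ _ _ h h3' hx hd hne
        · exact ihc _ _ _ h h3' hx hd hne

theorem mem_neq (t : T) : ∀ (i d : ℕ) (l : List ℕ), mem t l = true → (∀ y ∈ l, y < 3) →
    i + 1 + d < l.length → l.getD i 0 ≠ l.getD (i + 1 + d) 0 → mem (neq i d t) l = true := by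
  induction t with
  | e => intro i d l h; simp [mem] at h
  | f => intro i d l _ _ _ _; simp [neq, mem]
  | n a b c iha ihb ihc =>
    intro i d l h h3 hd hne
    cases l with
    | nil => simp at hd
    | cons y l =>
      rw [mem_n] at h
      have hy : y < 3 := h3 y (by simp)
      have h3' : ∀ y ∈ l, y < 3 := fun z hz => h3 z (by simp [hz])
      cases i with
      | zero =>
        have e1 : 0 + 1 + d = d + 1 := by omega
        rw [e1] at hne hd
        simp only [List.getD_cons_zero, List.getD_cons_succ] at hne
        simp only [List.length_cons, add_lt_add_iff_right] at hd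
        rw [neq, mem_mk]
        rcases (by omega : y = 0 ∨ y = 1 ∨ y = 2) with rfl | rfl | rfl
        · simp only [if_true] at h ⊢
          exact mem_excl _ _ _ _ h h3' (by norm_num) hd (Ne.symm hne)
        · simp only [one_ne_zero, if_false, if_true] at h ⊢
          exact mem_excl _ _ _ _ h h3' (by norm_num) hd (Ne.symm hne)
        · norm_num at h ⊢
          exact mem_excl _ _ _ _ h h3' (by norm_num) hd (Ne.symm hne)
      | succ i =>
        have e1 : i + 1 + 1 + d = (i + 1 + d) + 1 := by omega
        rw [e1] at hne hd
        simp only [List.getD_cons_succ] at hne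
        simp only [List.length_cons, add_lt_add_iff_right] at hd
        rw [neq, mem_mk]
        split_ifs at h ⊢
        · exact iha _ _ _ h h3' hd hne
        · exact ihb _ _ _ h h3' hd hne
        · exact ihc _ _ _ h h3' hd hne

theorem mem_close (t : T) : ∀ (i : ℕ) (l : List ℕ), mem t l = true → i < l.length →
    mem (close i t) (l.eraseIdx i) = true := by
  induction t with
  | e => intro i l h; simp [mem] at h
  | f => intro i l _ _; simp [close, mem]
  | n a b c iha ihb ihc =>
    intro i l h hi
    cases l with
    | nil => simp at hi
    | cons y l =>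
      rw [mem_n] at h
      cases i with
      | zero =>
        simp only [List.eraseIdx_cons_zero]
        rw [close]
        split_ifs at h
        · exact mem_union_left _ _ _ (mem_union_left _ _ _ h)
        · exact mem_union_left _ _ _ (mem_union_right _ _ _ h)
        · exact mem_union_right _ _ _ h
      | succ i =>
        simp only [List.eraseIdx_cons_succ]
        simp only [List.length_cons, add_lt_add_iff_right] at hi
        rw [close, mem_mk]
        split_ifs at h ⊢
        · exact iha _ _ h hi
        · exact ihb _ _ h hi
        · exact ihc _ _ h hi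

end T

/-- Instructions: add an edge to the front of the frontier; use that the edges at positions `i`
and `i+1+d` have different colours; forget the edge at position `i`. -/
inductive Op where
  | add : ℕ → Op
  | neq : ℕ → ℕ → Op
  | close : ℕ → Op

def step (adjE : ℕ → ℕ → Bool) (s : List ℕ × T) : Op → List ℕ × T
  | .add e => (e :: s.1, T.mk s.2 s.2 s.2)
  | .neq i d =>
    if adjE (s.1.getD i 0) (s.1.getD (i + 1 + d) 0) && Nat.blt (i + 1 + d) s.1.length then
      (s.1, T.neq i d s.2) else s
  | .close i => if Nat.blt i s.1.length then (s.1.eraseIdx i, T.close i s.2) else s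

def run (adjE : ℕ → ℕ → Bool) (ops : List Op) (s : List ℕ × T) : List ℕ × T :=
  ops.foldl (step adjE) s

theorem step_sound (adjE : ℕ → ℕ → Bool) (ce : ℕ → ℕ) (h3 : ∀ i, ce i < 3)
    (hne : ∀ i j, adjE i j = true → ce i ≠ ce j) (s : List ℕ × T)
    (hs : T.mem s.2 (s.1.map ce) = true) (o : Op) :
    T.mem (step adjE s o).2 ((step adjE s o).1.map ce) = true := by
  have h3' : ∀ y ∈ s.1.map ce, y < 3 := by
    intro y hy
    obtain ⟨z, _, rfl⟩ := List.mem_map.1 hy
    exact h3 z
  cases o with
  | add e =>
    simp only [step, List.map_cons]
    rw [T.mem_mk]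
    split_ifs <;> exact hs
  | neq i d =>
    simp only [step]
    split_ifs with h
    · simp only [Bool.and_eq_true] at h
      obtain ⟨ha, hb⟩ := h
      have hb' : i + 1 + d < s.1.length := by simpa [Nat.blt_eq] using hb
      apply T.mem_neq _ _ _ _ hs h3' (by simpa using hb')
      have key : ∀ k, k < s.1.length → (s.1.map ce).getD k 0 = ce (s.1.getD k 0) := by
        intro k hk
        simp [List.getD_eq_getElem?_getD, List.getElem?_map, List.getElem?_eq_getElem hk]
      have g1 := key i (by omega)
      have g2 := key (i + 1 + d) hb'
      rw [g1, g2]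
      exact hne _ _ ha
    · exact hs
  | close i =>
    simp only [step]
    split_ifs with h
    · have h' : i < s.1.length := by simpa [Nat.blt_eq] using h
      have := T.mem_close _ i _ hs (by simpa using h')
      simpa [List.eraseIdx_map] using this
    · exact hs

theorem run_sound (adjE : ℕ → ℕ → Bool) (ce : ℕ → ℕ) (h3 : ∀ i, ce i < 3)
    (hne : ∀ i j, adjE i j = true → ce i ≠ ce j) (ops : List Op) (s : List ℕ × T)
    (hs : T.mem s.2 (s.1.map ce) = true) :
    T.mem (run adjE ops s).2 ((run adjE ops s).1.map ce) = true := by
  induction ops generalizing s with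
  | nil => exact hs
  | cons o ops ih =>
    simp only [run, List.foldl_cons]
    exact ih _ (step_sound adjE ce h3 hne s hs o)

/-- If the sweep ends in the empty set there is no colouring. -/
theorem refute (adjE : ℕ → ℕ → Bool) (ops : List Op)
    (hrun : (run adjE ops ([], T.f)).2.isE = true) (ce : ℕ → ℕ) (h3 : ∀ i, ce i < 3)
    (hne : ∀ i j, adjE i j = true → ce i ≠ ce j) : False := by
  have h := run_sound adjE ce h3 hne ops ([], T.f) (by simp [T.mem])
  generalize run adjE ops ([], T.f) = r at h hrun
  obtain ⟨F, t⟩ := r
  cases t with
  | e => simp [T.mem] at h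
  | f => simp [T.isE] at hrun
  | n a b c => simp [T.isE] at hrun

end Pool.Agent.H840R4.Trie
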